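import Pool.Agent.Helper1.UQ.St1

/-! UQ, module CTR: identification of vertices raises the measure. -/

set_option autoImplicit false

open Finset

namespace Pool.Agent.Helper87.UQ

open Classical Pool.Agent.Helper30.RCU Pool.Agent.Helper1.UQ

universe u

theorem hCTR (hRKM : StRKM.{u}) : StCTR.{u} := by
  intro V V' ι φ σ p q hp hp1 hq E f hf hfm
  obtain ⟨h1, h2, -⟩ := hRKM V V' ι φ σ
  have hq0 : (0 : ℝ) < q := lt_of_lt_of_le one_pos hq
  obtain ⟨R, hR⟩ : ∃ R : Finset ι → ℝ, ∀ ω, R ω = q ^ (rk φ ω - rk (cm φ σ) ω) :=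
    ⟨_, fun ω => rfl⟩
  have hR0 : ∀ ω, 0 ≤ R ω := fun ω => by rw [hR]; positivity
  have hRm : Monotone R := fun ω ω' h => by
    rw [hR, hR]
    exact pow_le_pow_right₀ hq (h2 ω ω' h)
  have hw : ∀ ω, wt (cm φ σ) p q E ω = R ω * wt φ p q E ω := fun ω => by
    have h3 : q⁻¹ ^ rk (cm φ σ) ω = R ω * q⁻¹ ^ rk φ ω := by
      rw [hR]
      obtain ⟨d, hd⟩ := Nat.exists_eq_add_of_le (h1 ω)
      rw [hd, Nat.add_sub_cancel_left, pow_add]
      have h4 : q ^ d * q⁻¹ ^ d = 1 := by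
        rw [← mul_pow, mul_inv_cancel₀ hq0.ne', one_pow]
      calc q⁻¹ ^ rk (cm φ σ) ω = q⁻¹ ^ rk (cm φ σ) ω * (q ^ d * q⁻¹ ^ d) := by rw [h4, mul_one]
        _ = q ^ d * (q⁻¹ ^ rk (cm φ σ) ω * q⁻¹ ^ d) := by ring
    unfold wt
    rw [h3]
    ring
  have hS : ∀ k : Finset ι → ℝ, S (cm φ σ) p q E k = S φ p q E (fun ω => R ω * k ω) := by
    intro k
    unfold S
    refine Finset.sum_congr rfl fun ω _ => ?_
    rw [hw]
    ring
  have hpos := S_one_pos (φ := φ) hp hp1 hq E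
  have hpos' := S_one_pos (φ := cm φ σ) hp hp1 hq E
  have key := S_fkg (φ := φ) hp hp1 hq E hR0 hf hRm hfm
  have e1 : S φ p q E R = S (cm φ σ) p q E (fun _ => 1) := by
    rw [hS]
    simp only [mul_one]
  rw [e1] at key
  unfold ex
  rw [div_le_div_iff₀ hpos hpos', hS f]
  linarith

end Pool.Agent.Helper87.UQ
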